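import Pool.Agent.Lib.MP_0b6b0e_gt.ZB.Defs

/-!
Module F1: a function with zero integrals over all hyperplanes through the origin.
-/

set_option autoImplicit false

open Set Filter Topology MeasureTheory

open scoped InnerProductSpace

namespace Pool.Agent.Lib.MP_0b6b0e_gt.ZB.H15

section

variable {V : Type} [NormedAddCommGroup V] [InnerProductSpace ℝ V] [FiniteDimensional ℝ V]
    [MeasurableSpace V] [BorelSpace V]

theorem int_gauss (hn : 1 ≤ Module.finrank ℝ V) {c : ℝ} (hc : 0 < c) :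
    Integrable (fun x : V => Real.exp (-c * ‖x‖ ^ 2)) := by
  have : Nontrivial V := Module.nontrivial_of_finrank_pos (R := ℝ) (by omega)
  refine (integrable_fun_norm_addHaar (volume : Measure V)
    (f := fun r : ℝ => Real.exp (-c * r ^ 2))).2 ?_
  have h := integrableOn_rpow_mul_exp_neg_mul_sq hc
    (s := ((Module.finrank ℝ V - 1 : ℕ) : ℝ)) (by
      have : (0 : ℝ) ≤ ((Module.finrank ℝ V - 1 : ℕ) : ℝ) := Nat.cast_nonneg _
      linarith)
  refine h.congr_fun ?_ measurableSet_Ioi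
  intro y _
  simp only [Real.rpow_natCast, smul_eq_mul]

theorem int_inv_gauss (hn : 2 ≤ Module.finrank ℝ V) {c : ℝ} (hc : 0 < c) :
    Integrable (fun x : V => ‖x‖⁻¹ * Real.exp (-c * ‖x‖ ^ 2)) := by
  have : Nontrivial V := Module.nontrivial_of_finrank_pos (R := ℝ) (by omega)
  refine (integrable_fun_norm_addHaar (volume : Measure V)
    (f := fun r : ℝ => r⁻¹ * Real.exp (-c * r ^ 2))).2 ?_
  have h := integrableOn_rpow_mul_exp_neg_mul_sq hc
    (s := ((Module.finrank ℝ V - 2 : ℕ) : ℝ)) (by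
      have : (0 : ℝ) ≤ ((Module.finrank ℝ V - 2 : ℕ) : ℝ) := Nat.cast_nonneg _
      linarith)
  refine h.congr_fun ?_ measurableSet_Ioi
  intro y hy
  have hy' : y ≠ 0 := ne_of_gt hy
  obtain ⟨k, hk⟩ : ∃ k, Module.finrank ℝ V = k + 2 := ⟨Module.finrank ℝ V - 2, by omega⟩
  simp only [Real.rpow_natCast, smul_eq_mul, hk]
  have e1 : k + 2 - 2 = k := by omega
  have e2 : k + 2 - 1 = k + 1 := by omega
  rw [e1, e2]
  field_simp
  ring

/-- Gaussian kernel -/
noncomputable def K (ε : ℝ) (u x : V) : ℝ :=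
  ε⁻¹ * Real.exp (-Real.pi * (⟪u, x⟫_ℝ / ε) ^ 2)

theorem K_nonneg {ε : ℝ} (hε : 0 < ε) (u x : V) : 0 ≤ K ε u x := by
  unfold K; positivity

theorem K_le {ε : ℝ} (hε : 0 < ε) (u x : V) : K ε u x ≤ ε⁻¹ := by
  unfold K
  have h : Real.exp (-Real.pi * (⟪u, x⟫_ℝ / ε) ^ 2) ≤ 1 := by
    rw [Real.exp_le_one_iff]
    have := Real.pi_pos
    nlinarith [sq_nonneg (⟪u, x⟫_ℝ / ε)]
  have h2 : 0 < ε⁻¹ := by positivity
  nlinarith

theorem K_symm (ε : ℝ) (u x : V) : K ε u x = K ε x u := by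
  unfold K
  rw [real_inner_comm]

/-- continuous with a Gaussian bound -/
def GB (f : V → ℝ) : Prop :=
  Continuous f ∧ ∃ c C : ℝ, 0 < c ∧ ∀ x, |f x| ≤ C * Real.exp (-c * ‖x‖ ^ 2)

theorem GB.integrable (hn : 1 ≤ Module.finrank ℝ V) {f : V → ℝ} (hf : GB f) :
    Integrable f := by
  obtain ⟨h1, c, C, hc, h2⟩ := hf
  refine ((int_gauss hn hc).const_mul C).mono' h1.aestronglyMeasurable ?_
  exact Eventually.of_forall fun x => by rw [Real.norm_eq_abs]; exact h2 x

theorem int_prod (hn : 1 ≤ Module.finrank ℝ V) {f g : V → ℝ} (hf : GB f) (hg : GB g) {ε : ℝ}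
    (hε : 0 < ε) :
    Integrable (Function.uncurry fun u x : V => g u * (f x * K ε u x))
      ((volume : Measure V).prod (volume : Measure V)) := by
  have h1 := ((hg.integrable hn).mul_prod (hf.integrable hn)).norm.const_mul ε⁻¹
  refine h1.mono' ?_ ?_
  · apply Continuous.aestronglyMeasurable
    have e1 := hf.1
    have e2 := hg.1
    unfold K Function.uncurry
    fun_prop
  · refine Eventually.of_forall fun p => ?_
    simp only [Function.uncurry, Real.norm_eq_abs, abs_mul]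
    rw [abs_of_nonneg (K_nonneg hε _ _)]
    have e1 := K_le hε p.1 p.2
    have e2 : 0 ≤ |g p.1| * |f p.2| := by positivity
    nlinarith

theorem swap (hn : 1 ≤ Module.finrank ℝ V) {f g : V → ℝ} (hf : GB f) (hg : GB g) {ε : ℝ}
    (hε : 0 < ε) :
    ∫ u, g u * ∫ x, f x * K ε u x = ∫ x, f x * ∫ u, g u * K ε x u := by
  have h := integral_integral_swap (int_prod hn hf hg hε)
  have e1 : ∀ u : V, ∫ x, g u * (f x * K ε u x) = g u * ∫ x, f x * K ε u x := fun u =>
    integral_const_mul _ _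
  have e2 : ∀ x : V, ∫ u, g u * (f x * K ε u x) = f x * ∫ u, g u * K ε x u := by
    intro x
    rw [← integral_const_mul]
    congr 1
    funext u
    rw [K_symm ε u x]
    ring
  simp only [e1, e2] at h
  exact h

theorem limit (sl : SLStatement) (hn : 2 ≤ Module.finrank ℝ V) {f g : V → ℝ} (hf : GB f)
    (hg : GB g) :
    Tendsto (fun ε : ℝ => ∫ u, g u * ∫ x, f x * K ε u x) (𝓝[>] 0)
      (𝓝 (∫ u, g u * (‖u‖⁻¹ * ∫ y : (ℝ ∙ u)ᗮ, f y))) := by
  obtain ⟨h1, D, h2⟩ := sl V f hf.1 hf.2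
  obtain ⟨hgc, c, C, hc, hgb⟩ := hg
  have hg' : GB g := ⟨hgc, c, C, hc, hgb⟩
  have hC : ∀ u : V, 0 ≤ C * Real.exp (-c * ‖u‖ ^ 2) := fun u => (abs_nonneg _).trans (hgb u)
  refine tendsto_integral_filter_of_dominated_convergence
    (fun u : V => (C * |D|) * (‖u‖⁻¹ * Real.exp (-c * ‖u‖ ^ 2))) ?_ ?_ ?_ ?_
  · filter_upwards [self_mem_nhdsWithin] with ε hε
    have h := (int_prod (by omega) hf hg' hε).integral_prod_left
    have e1 : ∀ u : V, ∫ x, g u * (f x * K ε u x) = g u * ∫ x, f x * K ε u x := fun u =>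
      integral_const_mul _ _
    simp only [Function.uncurry, e1] at h
    exact h.aestronglyMeasurable
  · filter_upwards [self_mem_nhdsWithin] with ε hε
    have hne : ∀ᵐ u : V, u ≠ 0 := by
      have : Nontrivial V := Module.nontrivial_of_finrank_pos (R := ℝ) (by omega)
      exact Measure.ae_ne (volume : Measure V) 0
    filter_upwards [hne] with u hu
    have e1 := h2 u hu ε hε
    have e2 : |∫ x, f x * K ε u x| ≤ ∫ x, |f x| * K ε u x := by
      refine (abs_integral_le_integral_abs).trans (le_of_eq ?_)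
      congr 1
      funext x
      rw [abs_mul, abs_of_nonneg (K_nonneg hε u x)]
    have e3 : ∫ x, |f x| * K ε u x ≤ D * ‖u‖⁻¹ := e1
    have e4 : D * ‖u‖⁻¹ ≤ |D| * ‖u‖⁻¹ :=
      mul_le_mul_of_nonneg_right (le_abs_self D) (by positivity)
    rw [Real.norm_eq_abs, abs_mul]
    calc |g u| * |∫ x, f x * K ε u x| ≤ (C * Real.exp (-c * ‖u‖ ^ 2)) * (|D| * ‖u‖⁻¹) := by
          apply mul_le_mul (hgb u) (by linarith) (abs_nonneg _) (hC u)
      _ = _ := by ring
  · exact (int_inv_gauss hn hc).const_mul _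
  · have hne : ∀ᵐ u : V, u ≠ 0 := by
      have : Nontrivial V := Module.nontrivial_of_finrank_pos (R := ℝ) (by omega)
      exact Measure.ae_ne (volume : Measure V) 0
    filter_upwards [hne] with u hu
    exact (h1 u hu).const_mul (g u)

end

/-- Module F1. -/
theorem F1 (sl : SLStatement) (gi : GIStatement) : F1Statement := by
  intro V _ _ _ _ _ F hn hFc hFb hF e he s
  set H : V → ℝ := fun u => Real.cos (s * ⟪e, u⟫_ℝ) * Real.exp (-‖u‖ ^ 2 / 2) with hH
  have hFG : GB F := ⟨hFc, hFb⟩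
  have hHG : GB H := by
    refine ⟨by rw [hH]; fun_prop, 1 / 2, 1, by norm_num, ?_⟩
    intro x
    rw [hH]
    simp only [abs_mul, one_mul]
    rw [abs_of_pos (Real.exp_pos _)]
    have e1 := Real.abs_cos_le_one (s * ⟪e, x⟫_ℝ)
    have e2 : Real.exp (-‖x‖ ^ 2 / 2) = Real.exp (-(1 / 2) * ‖x‖ ^ 2) := by
      congr 1; ring
    rw [e2]
    have e3 := Real.exp_pos (-(1 / 2) * ‖x‖ ^ 2)
    nlinarith
  have h1 := limit sl hn hFG hHG
  have h2 := limit sl hn hHG hFG
  have h3 : Tendsto (fun ε : ℝ => ∫ u, H u * ∫ x, F x * K ε u x) (𝓝[>] 0)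
      (𝓝 (∫ u, F u * (‖u‖⁻¹ * ∫ y : (ℝ ∙ u)ᗮ, H y))) := by
    refine h2.congr' ?_
    filter_upwards [self_mem_nhdsWithin] with ε hε
    exact swap (by omega) hHG hFG hε
  have h4 := tendsto_nhds_unique h1 h3
  have h5 : ∀ u : V, H u * (‖u‖⁻¹ * ∫ y : (ℝ ∙ u)ᗮ, F y) = 0 := by
    intro u
    by_cases hu : u = 0
    · rw [hu, norm_zero, inv_zero, zero_mul, mul_zero]
    · rw [hF u hu, mul_zero, mul_zero]
  simp only [h5, integral_zero] at h4
  set κ : ℝ := (2 * Real.pi) ^ (((Module.finrank ℝ V : ℝ) - 1) / 2) with hκ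
  have hκ0 : κ ≠ 0 := by
    rw [hκ]
    positivity
  have h6 : ∀ u : V, F u * (‖u‖⁻¹ * ∫ y : (ℝ ∙ u)ᗮ, H y) =
      κ * (F u * (‖u‖⁻¹ * Real.exp (-(s ^ 2 / 2) * (1 - (⟪e, u⟫_ℝ / ‖u‖) ^ 2)))) := by
    intro u
    by_cases hu : u = 0
    · rw [hu, norm_zero, inv_zero, zero_mul, zero_mul, mul_zero, mul_zero]
    · have e1 := gi V u e s hu
      rw [he, one_pow] at e1
      have e2 : ∫ y : (ℝ ∙ u)ᗮ, H y = κ *
          Real.exp (-(s ^ 2 / 2) * (1 - (⟪e, u⟫_ℝ / ‖u‖) ^ 2)) := e1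
      rw [e2]
      ring
  simp only [h6] at h4
  rw [integral_const_mul] at h4
  rcases mul_eq_zero.1 h4.symm with h | h
  · exact absurd h hκ0
  · exact h

end Pool.Agent.Lib.MP_0b6b0e_gt.ZB.H15
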